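import Pool.Agent.V1180.LPe

/-!
# MP_ccba21_an, Q2: no

A thin annulus with outer radius `R` has transfinite diameter `R`, but its logarithmic potential
operator has small norm, while that of the disc `B_R` has a negative eigenvalue `≤ -1`.
-/

namespace Pool.Agent.Results.MP_ccba21_an.ThinAnnulus

open Pool.Agent.V1180.LP Metric

theorem result : ∃ (Ω : Set ℂ) (R : ℝ), IsOpen Ω ∧ IsConnected Ω ∧ Bornology.IsBounded Ω ∧ 0 < R ∧
    IsTransfiniteDiameter (closure Ω) R ∧ tau (ball 0 R) < tau Ω :=
  main

end Pool.Agent.Results.MP_ccba21_an.ThinAnnulus
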